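import Pool.Agent.H525.EX.Stm8
import Pool.Agent.H356.EX.BRU

/-!
# Project EX (helper525), task BRB: translation with prescribed second coefficient (helper706)
-/

set_option autoImplicit false
set_option linter.unusedSectionVars false

namespace Pool.Agent.H706.EX

open Polynomial
open Pool.Agent.H525.QF Pool.Agent.H525.EX Pool.Agent.H356.EX
open scoped Classical

section

variable {K : Type} [Field K] [Fintype K] [CharP K 2]

theorem count2 (N : ℕ) (A : Finset (K[X] × K[X]))
    (hA : ∀ v, ((T v).Monic ∧ (T v).natDegree = N) ↔ v ∈ A) (Q : K[X] → Prop)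
    (R : K[X] × K[X] → Prop) (hQ : ∀ v, Q (T v) ↔ R v) :
    {u : K[X] | u.Monic ∧ u.natDegree = N ∧ Q u ∧
      Irreducible (u ^ 2 + X * (derivative u) ^ 2)}.ncard =
      ((A.filter (fun v => Irreducible (F2 v))).filter R).card := by
  have h : {u : K[X] | u.Monic ∧ u.natDegree = N ∧ Q u ∧
      Irreducible (u ^ 2 + X * (derivative u) ^ 2)} =
      T '' (↑((A.filter (fun v => Irreducible (F2 v))).filter R) : Set (K[X] × K[X])) := by
    ext u
    rw [Set.mem_setOf_eq, Set.mem_image]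
    constructor
    · rintro ⟨h1, h2, h4, h3⟩
      obtain ⟨v, rfl⟩ := T_surj u
      refine ⟨v, ?_, rfl⟩
      rw [Finset.mem_coe, Finset.mem_filter, Finset.mem_filter]
      rw [T_F2] at h3
      exact ⟨⟨(hA v).1 ⟨h1, h2⟩, h3⟩, (hQ v).1 h4⟩
    · rintro ⟨v, hv, rfl⟩
      rw [Finset.mem_coe, Finset.mem_filter, Finset.mem_filter] at hv
      rw [T_F2]
      exact ⟨((hA v).2 hv.1.1).1, ((hA v).2 hv.1.1).2, (hQ v).2 hv.2, hv.1.2⟩
  rw [h, Set.ncard_image_of_injective _ T_inj, Set.ncard_coe_finset]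

theorem sum_ind (A : Finset (K[X] × K[X])) (f : K[X] × K[X] → K) (c : K) :
    ∑ v ∈ A, (if f v = c then (1 : ℝ) else 0) = ((A.filter (fun v => f v = c)).card : ℝ) := by
  rw [Finset.sum_boole]

end

/-- **BRB** -/
theorem t_brb : S_brb := by
  intro K _ _ _
  refine ⟨fun m c => ?_, fun m c hm => ?_, fun c => ?_, fun m => ?_, fun m => ?_⟩
  · unfold pb p1
    rw [sum_ind _ (fun v => v.1.coeff m) c, count2 (2 * m + 1) _ (fun v => deg1 v m)
      (fun u => u.coeff (2 * m + 1 - 1) = c ^ 2) (fun v => v.1.coeff m = c)]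
    intro v
    rw [Nat.add_sub_cancel, T_even]
    exact ⟨fun h => sq_inj h, fun h => by rw [h]⟩
  · unfold pb p0
    rw [sum_ind _ (fun v => v.2.coeff (m - 1)) c, count2 (2 * m) _ (fun v => deg0 v m)
      (fun u => u.coeff (2 * m - 1) = c ^ 2) (fun v => v.2.coeff (m - 1) = c)]
    intro v
    rw [show 2 * m - 1 = 2 * (m - 1) + 1 by omega, T_odd]
    exact ⟨fun h => sq_inj h, fun h => by rw [h]⟩
  · have h2 : (2 : K) = 0 := by
      have := CharP.cast_eq_zero K 2
      exact_mod_cast this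
    have h : (∃ w : K, w ^ 2 + w = c ^ 2) ↔ ∃ w : K, w ^ 2 + w = c := by
      constructor
      · rintro ⟨w, hw⟩
        obtain ⟨z, hz⟩ := (bijective_frobenius K 2).2 w
        rw [frobenius_def] at hz
        refine ⟨z, sq_inj ?_⟩
        rw [← hw, ← hz]
        linear_combination z ^ 3 * h2
      · rintro ⟨z, hz⟩
        refine ⟨z ^ 2, ?_⟩
        rw [← hz]
        linear_combination -z ^ 3 * h2
    unfold psi
    by_cases h3 : ∃ w : K, w ^ 2 + w = c
    · rw [if_pos h3, if_pos (h.2 h3)]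
    · rw [if_neg h3, if_neg (fun h4 => h3 (h.1 h4))]
  · unfold p1 pi1
    rw [Finset.sum_const, nsmul_eq_mul, mul_one]
  · unfold p0 pi0
    rw [Finset.sum_const, nsmul_eq_mul, mul_one]

end Pool.Agent.H706.EX
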